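import Pool.Agent.R598.LX.Main

set_option autoImplicit false

namespace Pool.Agent.Results.MP_5f54a2_lc.TwoColouringNot3Lin

open Pool.Agent.W868 Pool.Agent.R598.LX

/-- There is a countable transitive model of ZF in which the compactness principle for `K_2`
holds and the compactness principle for `3LIN_2` fails. -/
theorem result : ∃ M : Set ZFSet.{0}, M.Countable ∧ IsZF M ∧ KK2 M ∧ ¬ K3LIN2 M := main

end Pool.Agent.Results.MP_5f54a2_lc.TwoColouringNot3Lin
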